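import Pool.Agent.U115.GE.Defs
import Pool.Agent.N713.GB.CHI2

/-!
# Project GE (helper115), part CFG: the class and the data of project GD
-/

set_option autoImplicit false

open scoped Classical

namespace Pool.Agent.U643.GE

open Finset
open Pool.Agent.U115.GE (Res Split Inert Class cfg S_CFG)
open Pool.Agent.U115.GD (Hc In Sp Cl Ok Cfg)
open Pool.Agent.N713.GB (J_mod exists_neg)

/-- the modulus, up to the factor `8` -/
def nn (a b : ℤ) : ℕ := (b * (a ^ 2 - 4 * b)).natAbs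

theorem nn_pos {a b : ℤ} (hb : b ≠ 0) (hc : a ^ 2 - 4 * b ≠ 0) : 0 < nn a b :=
  Int.natAbs_pos.2 (mul_ne_zero hb hc)

theorem mem_L {a b : ℤ} (hb : b ≠ 0) (hc : a ^ 2 - 4 * b ≠ 0) {l : ℕ} :
    l ∈ (cfg a b).L ↔ l.Prime ∧ l ≠ 2 ∧ l ∣ nn a b := by
  show l ∈ (b * (a ^ 2 - 4 * b)).natAbs.primeFactors.erase 2 ↔ _
  rw [mem_erase, Nat.mem_primeFactors]
  have h0 : (b * (a ^ 2 - 4 * b)).natAbs ≠ 0 := (nn_pos hb hc).ne'
  constructor
  · rintro ⟨h1, h2, h3, -⟩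
    exact ⟨h2, h1, h3⟩
  · rintro ⟨h1, h2, h3⟩
    exact ⟨h2, h1, h3, h0⟩

/-- the symbols at `n ≡ 1` modulo `8` -/
theorem sym_two {n : ℕ} (hn : n % 8 = 1) : jacobiSym 2 n = 1 := by
  have ho : Odd n := by
    rw [Nat.odd_iff]
    omega
  rw [jacobiSym.at_two ho, ZMod.χ₈_nat_eq_if_mod_eight]
  have h1 : ¬ n % 2 = 0 := by omega
  rw [if_neg h1, if_pos (Or.inl hn)]

theorem sym_neg {n : ℕ} (hn : n % 8 = 1) : jacobiSym (-1) n = 1 := by
  have ho : Odd n := by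
    rw [Nat.odd_iff]
    omega
  rw [jacobiSym.at_neg_one ho]
  exact ZMod.χ₄_nat_one_mod_four (by omega)

theorem sym_nat {G : Cfg} {n : ℕ} (hn : Hc G n) (m : ℕ) (hm : m ≠ 0)
    (h : ∀ l : ℕ, l.Prime → l ≠ 2 → l ∣ m → l ∈ G.L) : jacobiSym (m : ℤ) n = 1 := by
  have ho : Odd n := by
    rw [Nat.odd_iff]
    have := hn.1
    omega
  revert h hm
  induction m using Nat.recOnMul with
  | zero => exact fun h => absurd rfl h
  | one => exact fun _ _ => jacobiSym.one_left n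
  | prime p hp =>
    intro _ h
    by_cases h2 : p = 2
    · rw [h2]
      exact sym_two hn.1
    · have h3 : Odd p := hp.odd_of_ne_two h2
      rw [← jacobiSym.quadratic_reciprocity_one_mod_four (by have := hn.1; omega) h3]
      exact hn.2 p (h p hp h2 dvd_rfl)
  | mul x y ihx ihy =>
    intro hxy h
    have hx : x ≠ 0 := fun h0 => hxy (by rw [h0, zero_mul])
    have hy : y ≠ 0 := fun h0 => hxy (by rw [h0, mul_zero])
    rw [Nat.cast_mul, jacobiSym.mul_left, ihx hx fun l hl hl2 hd => h l hl hl2 (hd.mul_right y),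
      ihy hy fun l hl hl2 hd => h l hl hl2 (hd.mul_left x), one_mul]

theorem sym_int {G : Cfg} {n : ℕ} (hn : Hc G n) (u : ℤ) (hu : u ≠ 0)
    (h : ∀ l : ℕ, l.Prime → l ≠ 2 → l ∣ u.natAbs → l ∈ G.L) : jacobiSym u n = 1 := by
  have h1 := sym_nat hn u.natAbs (Int.natAbs_ne_zero.2 hu) h
  rcases Int.natAbs_eq u with h2 | h2
  · rw [h2]
    exact h1
  · rw [h2, neg_eq_neg_one_mul, jacobiSym.mul_left, h1, mul_one]
    exact sym_neg hn.1

section

variable {a b : ℤ}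

theorem sym_b (hb : b ≠ 0) (hc : a ^ 2 - 4 * b ≠ 0) {n : ℕ} (hn : Hc (cfg a b) n) :
    jacobiSym b n = 1 := by
  refine sym_int hn b hb fun l hl hl2 hd => (mem_L hb hc).2 ⟨hl, hl2, ?_⟩
  unfold nn
  rw [Int.natAbs_mul]
  exact hd.mul_right _

theorem cop_dvd {m : ℕ} (hb : b ≠ 0) : Nat.Coprime m (8 * nn a b) →
    Odd m ∧ Nat.Coprime m b.natAbs ∧ Nat.Coprime m (a ^ 2 - 4 * b).natAbs := by
  intro h
  have h1 : Nat.Coprime m 8 := h.coprime_dvd_right (Nat.dvd_mul_right 8 _)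
  have h2 : Nat.Coprime m (nn a b) := h.coprime_dvd_right (Nat.dvd_mul_left _ 8)
  unfold nn at h2
  rw [Int.natAbs_mul] at h2
  refine ⟨?_, h2.coprime_dvd_right (Nat.dvd_mul_right _ _),
    h2.coprime_dvd_right (Nat.dvd_mul_left _ _)⟩
  have h3 : Nat.Coprime m 2 := h1.coprime_dvd_right (by norm_num)
  exact Nat.coprime_two_right.1 h3

theorem dvd_b (a b : ℤ) : 4 * b.natAbs ∣ 8 * nn a b := by
  unfold nn
  rw [Int.natAbs_mul]
  exact ⟨2 * (a ^ 2 - 4 * b).natAbs, by ring⟩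

theorem dvd_c (a b : ℤ) : 4 * (a ^ 2 - 4 * b).natAbs ∣ 8 * nn a b := by
  unfold nn
  rw [Int.natAbs_mul]
  exact ⟨2 * b.natAbs, by ring⟩

theorem mem_B {r : ℕ} : r ∈ (cfg a b).B ↔ r < 8 * nn a b ∧ Nat.Coprime r (8 * nn a b) ∧
    jacobiSym b r = -1 ∧ jacobiSym (a ^ 2 - 4 * b) r = -1 := by
  show r ∈ (range (8 * (b * (a ^ 2 - 4 * b)).natAbs)).filter _ ↔ _
  rw [mem_filter, mem_range]
  rfl

theorem cop_mod {m q : ℕ} : Nat.Coprime (m % q) q ↔ Nat.Coprime m q := by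
  rw [Nat.coprime_iff_gcd_eq_one, Nat.coprime_iff_gcd_eq_one, Nat.gcd_comm m q, Nat.gcd_rec q m]

theorem mod_mem_B {m : ℕ} (hb : b ≠ 0) (hc : a ^ 2 - 4 * b ≠ 0) : m % (8 * nn a b) ∈ (cfg a b).B ↔
    Nat.Coprime m (8 * nn a b) ∧ jacobiSym b m = -1 ∧ jacobiSym (a ^ 2 - 4 * b) m = -1 := by
  have hp : 0 < 8 * nn a b := Nat.mul_pos (by norm_num) (nn_pos hb hc)
  rw [mem_B, cop_mod]
  constructor
  · rintro ⟨-, h1, h2, h3⟩
    have ho := (cop_dvd hb h1).1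
    have ho' := (cop_dvd hb (cop_mod.2 h1)).1
    refine ⟨h1, ?_, ?_⟩
    · rw [← h2]
      exact J_mod (dvd_b a b) ho ho' (Nat.mod_mod _ _).symm
    · rw [← h3]
      exact J_mod (dvd_c a b) ho ho' (Nat.mod_mod _ _).symm
  · rintro ⟨h1, h2, h3⟩
    have ho := (cop_dvd hb h1).1
    have ho' := (cop_dvd hb (cop_mod.2 h1)).1
    refine ⟨Nat.mod_lt _ hp, h1, ?_, ?_⟩
    · rw [← h2]
      exact J_mod (dvd_b a b) ho' ho (Nat.mod_mod _ _)
    · rw [← h3]
      exact J_mod (dvd_c a b) ho' ho (Nat.mod_mod _ _)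

/-- a residue class -/
theorem exists_r (hb : b ≠ 0) (hc : a ^ 2 - 4 * b ≠ 0) (hbs : ¬ IsSquare b)
    (hcs : ¬ IsSquare (a ^ 2 - 4 * b)) : ∃ m : ℕ, Nat.Coprime m (8 * nn a b) ∧
      jacobiSym b m = -1 ∧ jacobiSym (a ^ 2 - 4 * b) m = -1 := by
  have hp : 8 * nn a b ≠ 0 := (Nat.mul_pos (by norm_num) (nn_pos hb hc)).ne'
  obtain ⟨u, hu1, hu2, hu3⟩ := exists_neg hbs (8 * nn a b) hp
  obtain ⟨v, hv1, hv2, hv3⟩ := exists_neg hcs (8 * nn a b) hp
  have key : ∀ (x : ℤ) (m : ℕ), Nat.Coprime m x.natAbs → jacobiSym x m = 1 ∨ jacobiSym x m = -1 := by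
    intro x m h
    refine (jacobiSym.trichotomy x m).resolve_left ?_
    apply jacobiSym.ne_zero
    rw [Int.gcd, Int.natAbs_natCast, Nat.gcd_comm]
    exact h
  rcases key (a ^ 2 - 4 * b) u (cop_dvd hb hu2).2.2 with h1 | h1
  · rcases key b v (cop_dvd hb hv2).2.1 with h2 | h2
    · have hu0 : u ≠ 0 := by
        rintro rfl
        exact absurd hu1 (by decide)
      have hv0 : v ≠ 0 := by
        rintro rfl
        exact absurd hv1 (by decide)
      refine ⟨u * v, Nat.Coprime.mul_left hu2 hv2, ?_, ?_⟩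
      · rw [jacobiSym.mul_right' b hu0 hv0, hu3, h2, mul_one]
      · rw [jacobiSym.mul_right' _ hu0 hv0, h1, hv3, one_mul]
    · exact ⟨v, hv2, h2, hv3⟩
  · exact ⟨u, hu2, hu3, h1⟩

theorem res_iff (hb : b ≠ 0) (hc : a ^ 2 - 4 * b ≠ 0) (n : ℕ) :
    Res a b n ↔ Hc (cfg a b) n := by
  unfold Res Hc
  refine and_congr_right fun hn => ?_
  constructor
  · intro h l hl
    obtain ⟨h1, h2, h3⟩ := (mem_L hb hc).1 hl
    have : Fact l.Prime := ⟨h1⟩
    obtain ⟨h4, h5⟩ := h l h1 h2 (Int.natCast_dvd.2 h3)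
    rw [← jacobiSym.legendreSym.to_jacobiSym]
    have h6 : ((n : ℤ) : ZMod l) ≠ 0 := by
      rw [Int.cast_natCast]
      intro h0
      exact h4 ((ZMod.natCast_eq_zero_iff n l).1 h0)
    refine (legendreSym.eq_one_iff l h6).2 ?_
    rw [Int.cast_natCast]
    exact h5
  · intro h l h1 h2 h3
    have : Fact l.Prime := ⟨h1⟩
    have h4 := h l ((mem_L hb hc).2 ⟨h1, h2, Int.natCast_dvd.1 h3⟩)
    rw [← jacobiSym.legendreSym.to_jacobiSym] at h4
    have h6 : ((n : ℤ) : ZMod l) ≠ 0 := by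
      intro h0
      rw [(legendreSym.eq_zero_iff l n).2 h0] at h4
      exact zero_ne_one h4
    refine ⟨?_, ?_⟩
    · intro hd
      apply h6
      rw [Int.cast_natCast]
      exact (ZMod.natCast_eq_zero_iff n l).2 hd
    · have h7 := (legendreSym.eq_one_iff l h6).1 h4
      rwa [Int.cast_natCast] at h7

theorem inert_iff (hb : b ≠ 0) (hc : a ^ 2 - 4 * b ≠ 0) (q : ℕ) :
    Inert a b q ↔ In (cfg a b) q := by
  unfold Inert In
  refine and_congr_right fun hq => ?_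
  have : Fact q.Prime := ⟨hq⟩
  have h0 : (cfg a b).Q = 8 * nn a b := rfl
  rw [h0, mod_mem_B hb hc]
  have hx : ∀ x : ℤ, ¬ IsSquare (x : ZMod q) ↔ jacobiSym x q = -1 := by
    intro x
    rw [← jacobiSym.legendreSym.to_jacobiSym, legendreSym.eq_neg_one_iff]
  rw [hx, hx]
  constructor
  · rintro ⟨h2, h3, h4⟩
    refine ⟨?_, h3, h4⟩
    have hz : ∀ x : ℤ, jacobiSym x q = -1 → Nat.Coprime q x.natAbs := by
      intro x hx
      rw [Nat.Prime.coprime_iff_not_dvd hq]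
      intro hd
      have h5 : (x : ZMod q) = 0 := (ZMod.intCast_zmod_eq_zero_iff_dvd x q).2 (Int.natCast_dvd.2 hd)
      rw [← jacobiSym.legendreSym.to_jacobiSym, (legendreSym.eq_zero_iff q x).2 h5] at hx
      exact absurd hx (by norm_num)
    refine Nat.Coprime.mul_right ?_ ?_
    · have h5 : Nat.Coprime q 2 := (Nat.coprime_primes hq Nat.prime_two).2 h2
      exact Nat.Coprime.pow_right 3 h5
    · unfold nn
      rw [Int.natAbs_mul]
      exact Nat.Coprime.mul_right (hz _ h3) (hz _ h4)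
  · rintro ⟨h1, h3, h4⟩
    refine ⟨?_, h3, h4⟩
    rintro rfl
    exact absurd (cop_dvd hb h1).1 (by decide)

theorem cfg_ok (hb : b ≠ 0) (hc : a ^ 2 - 4 * b ≠ 0) (hbs : ¬ IsSquare b)
    (hcs : ¬ IsSquare (a ^ 2 - 4 * b)) : Ok (cfg a b) where
  q0 := Nat.mul_pos (by norm_num) (nn_pos hb hc)
  q8 := Nat.dvd_mul_right 8 _
  hL l hl := by
    obtain ⟨h1, h2, h3⟩ := (mem_L hb hc).1 hl
    exact ⟨h1, h2, h3.mul_left 8⟩
  hQ p hp hd := by
    by_cases h2 : p = 2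
    · exact Or.inl h2
    right
    refine (mem_L hb hc).2 ⟨hp, h2, ?_⟩
    rcases (Nat.Prime.dvd_mul hp).1 (hd : p ∣ 8 * nn a b) with h | h
    · exfalso
      apply h2
      have h3 : p ∣ 2 ^ 3 := h
      exact (Nat.prime_dvd_prime_iff_eq hp Nat.prime_two).1 (hp.dvd_of_dvd_pow h3)
    · exact h
  hB r hr := by
    obtain ⟨h1, h2, h3, -⟩ := mem_B.1 hr
    refine ⟨h1, h2, fun h4 => ?_⟩
    rw [sym_b hb hc h4] at h3
    exact absurd h3 (by norm_num)
  hBn := by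
    obtain ⟨m, hm⟩ := exists_r hb hc hbs hcs
    exact ⟨m % (8 * nn a b), (mod_mem_B hb hc).2 hm⟩

end

/-- **the class and the data of project GD** -/
theorem t_CFG : S_CFG := by
  intro a b hb hc hbs hcs
  refine ⟨cfg_ok hb hc hbs hcs, res_iff hb hc, inert_iff hb hc, ?_⟩
  intro D
  unfold Pool.Agent.U115.GE.Class Cl
  refine and_congr_right fun hD => ?_
  have h1 : ∏ p ∈ D.primeFactors, p = D := Nat.prod_primeFactors_of_squarefree hD
  rw [h1]
  constructor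
  · rintro ⟨h2, h3⟩
    refine ⟨fun p hp => ?_, (res_iff hb hc D).1 h2⟩
    rcases h3 p hp with h | h
    · exact Or.inl ⟨h.1, (res_iff hb hc p).1 h.2⟩
    · exact Or.inr ((inert_iff hb hc p).1 h)
  · rintro ⟨h3, h2⟩
    refine ⟨(res_iff hb hc D).2 h2, fun p hp => ?_⟩
    rcases h3 p hp with h | h
    · exact Or.inl ⟨h.1, (res_iff hb hc p).2 h.2⟩
    · exact Or.inr ((inert_iff hb hc p).2 h)

end Pool.Agent.U643.GE
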